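import Pool.Agent.N804.CS
import Pool.Agent.N804.PV.Def

set_option autoImplicit false

/-!
# Project PV: the mean square of the sum over the zeros, abstract part (transforms)

Project PV (helper804), part PV3 (helper704).
-/

namespace Pool.Agent.N704.PV3

open Filter Topology Set MeasureTheory
open Pool.Agent.N804 (SC CT ST CT_dec CT_bd CT_deriv)
open Pool.Agent.N804.PV

lemma CT_neg (w : ℝ → ℝ) (x : ℝ) : CT w (-x) = CT w x := by
  unfold CT
  congr 1
  funext α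
  rw [show 2 * Real.pi * α * -x = -(2 * Real.pi * α * x) by ring, Real.cos_neg]

lemma ST_neg (w : ℝ → ℝ) (x : ℝ) : ST w (-x) = - ST w x := by
  unfold Pool.Agent.N804.ST
  rw [← integral_neg]
  congr 1
  funext α
  rw [show 2 * Real.pi * α * -x = -(2 * Real.pi * α * x) by ring, Real.sin_neg]
  ring

lemma ST_bd {h : ℝ → ℝ} (H : SC h) : ∃ A : ℝ, 0 ≤ A ∧ ∀ x : ℝ, |ST h x| ≤ A := by
  refine ⟨∫ α : ℝ, |h α|, integral_nonneg fun α => abs_nonneg _, fun x => ?_⟩
  unfold Pool.Agent.N804.ST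
  refine (abs_integral_le_integral_abs).trans (integral_mono_of_nonneg
    (ae_of_all _ fun α => abs_nonneg _)
    (H.cont.integrable_of_hasCompactSupport H.cs).abs (ae_of_all _ fun α => ?_))
  simp only []
  rw [abs_mul]
  exact mul_le_of_le_one_right (abs_nonneg _) (Real.abs_sin_le_one _)

lemma four (x : ℝ) : (1 + |x|) ^ 4 ≤ 16 * (1 + x ^ 4) := by
  have h0 := abs_nonneg x
  have e : x ^ 4 = |x| ^ 4 := by rw [← abs_pow, abs_of_nonneg (by positivity)]
  rw [e]
  nlinarith [sq_nonneg (|x| - 1), sq_nonneg (|x| ^ 2 - 1), sq_nonneg (|x| ^ 2 - |x|),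
    mul_nonneg h0 (sq_nonneg (|x| - 1)), mul_nonneg h0 h0, pow_nonneg h0 3]

lemma dec {w : ℝ → ℝ} (H : SC w) : ∃ A : ℝ, 0 ≤ A ∧ ∀ x : ℝ,
    |CT w x| ≤ A / (1 + |x|) ^ 4 ∧ |ST w x| ≤ A / (1 + |x|) ^ 4 := by
  have hpi := Real.pi_gt_three
  obtain ⟨A0, h0⟩ := CT_bd H
  obtain ⟨A1, h1⟩ := CT_dec H 2
  obtain ⟨B0, hB, k0⟩ := ST_bd H
  obtain ⟨B1, k1⟩ := CT_dec H.deriv 2
  have hA0 : 0 ≤ A0 := (abs_nonneg _).trans (h0 0)
  have hA1 : 0 ≤ A1 := by have := h1 1; rw [one_pow, one_mul] at this; exact (abs_nonneg _).trans this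
  have hB1 : 0 ≤ B1 := by have := k1 1; rw [one_pow, one_mul] at this; exact (abs_nonneg _).trans this
  refine ⟨16 * (A0 + A1 + 2 * B0 + B1), by positivity, fun x => ?_⟩
  have hp : 0 < (1 + |x|) ^ 4 := by positivity
  have hx4 : 0 ≤ x ^ 4 := by positivity
  constructor
  · rw [le_div_iff₀ hp]
    calc |CT w x| * (1 + |x|) ^ 4 ≤ |CT w x| * (16 * (1 + x ^ 4)) :=
          mul_le_mul_of_nonneg_left (four x) (abs_nonneg _)
      _ = 16 * (|CT w x| + x ^ (2 * 2) * |CT w x|) := by ring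
      _ ≤ 16 * (A0 + A1) := by
        have := h0 x
        have := h1 x
        linarith
      _ ≤ _ := by linarith
  · rw [le_div_iff₀ hp]
    have hS : x ^ 4 * |ST w x| ≤ B0 + B1 := by
      rcases le_total |x| 1 with hx | hx
      · have h2 : x ^ 4 ≤ 1 := by
          rw [show x ^ 4 = |x| ^ 4 by rw [← abs_pow, abs_of_nonneg hx4]]
          exact pow_le_one₀ (abs_nonneg x) hx
        calc x ^ 4 * |ST w x| ≤ 1 * B0 := mul_le_mul h2 (k0 x) (abs_nonneg _) zero_le_one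
          _ ≤ _ := by linarith
      · have e := k1 x
        rw [CT_deriv H, abs_mul, abs_mul, abs_of_pos (by positivity : 0 < 2 * Real.pi)] at e
        have h3 : |ST w x| ≤ 2 * Real.pi * |x| * |ST w x| := by
          have : 1 ≤ 2 * Real.pi * |x| := by nlinarith
          nlinarith [abs_nonneg (ST w x)]
        calc x ^ 4 * |ST w x| ≤ x ^ 4 * (2 * Real.pi * |x| * |ST w x|) :=
              mul_le_mul_of_nonneg_left h3 hx4
          _ ≤ B1 := by
            rw [show (4 : ℕ) = 2 * 2 by norm_num]; exact e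
          _ ≤ _ := by linarith
    calc |ST w x| * (1 + |x|) ^ 4 ≤ |ST w x| * (16 * (1 + x ^ 4)) :=
          mul_le_mul_of_nonneg_left (four x) (abs_nonneg _)
      _ = 16 * (|ST w x| + x ^ 4 * |ST w x|) := by ring
      _ ≤ 16 * (B0 + (B0 + B1)) := by
        have := k0 x
        linarith
      _ ≤ _ := by linarith

/-- The transform of `w (y / L) Re (z e^{iyd})`, divided by `L`. -/
noncomputable def V (w : ℝ → ℝ) (L : ℝ) (z : ℂ) (d : ℝ) : ℝ :=
  z.re * CT w (d * L / (2 * Real.pi)) - z.im * ST w (d * L / (2 * Real.pi))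

lemma V_sub (w : ℝ → ℝ) (L : ℝ) (z z' : ℂ) (d : ℝ) : V w L (z - z') d = V w L z d - V w L z' d := by
  unfold V
  rw [Complex.sub_re, Complex.sub_im]
  ring

lemma V_real (w : ℝ → ℝ) (L r : ℝ) (d : ℝ) : V w L (r : ℂ) d = r * CT w (d * L / (2 * Real.pi)) := by
  unfold V
  rw [Complex.ofReal_re, Complex.ofReal_im]
  ring

lemma V_bd {w : ℝ → ℝ} {A : ℝ} (hA : 0 ≤ A) (hd : ∀ x : ℝ,
    |CT w x| ≤ A / (1 + |x|) ^ 4 ∧ |ST w x| ≤ A / (1 + |x|) ^ 4) {L : ℝ} (hL : 2 * Real.pi ≤ L)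
    (z : ℂ) (d : ℝ) : |V w L z d| ≤ 2 * A * ‖z‖ / (1 + |d|) ^ 4 := by
  have hpi := Real.pi_gt_three
  have h1 : |d| ≤ |d * L / (2 * Real.pi)| := by
    rw [abs_div, abs_mul, abs_of_pos (by positivity : 0 < 2 * Real.pi),
      abs_of_pos (by linarith : 0 < L), le_div_iff₀ (by positivity)]
    exact mul_le_mul_of_nonneg_left hL (abs_nonneg d)
  have h2 : A / (1 + |d * L / (2 * Real.pi)|) ^ 4 ≤ A / (1 + |d|) ^ 4 := by
    gcongr
  obtain ⟨h3, h4⟩ := hd (d * L / (2 * Real.pi))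
  unfold V
  calc |z.re * CT w (d * L / (2 * Real.pi)) - z.im * ST w (d * L / (2 * Real.pi))|
      ≤ |z.re * CT w (d * L / (2 * Real.pi))| + |z.im * ST w (d * L / (2 * Real.pi))| :=
        abs_sub _ _
    _ = |z.re| * |CT w (d * L / (2 * Real.pi))| + |z.im| * |ST w (d * L / (2 * Real.pi))| := by
        rw [abs_mul, abs_mul]
    _ ≤ ‖z‖ * (A / (1 + |d|) ^ 4) + ‖z‖ * (A / (1 + |d|) ^ 4) :=
        add_le_add
          (mul_le_mul (Complex.abs_re_le_norm z) (h3.trans h2) (abs_nonneg _) (norm_nonneg z))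
          (mul_le_mul (Complex.abs_im_le_norm z) (h4.trans h2) (abs_nonneg _) (norm_nonneg z))
    _ = 2 * A * ‖z‖ / (1 + |d|) ^ 4 := by ring

/-- `Re (z e^{iyd})` -/
noncomputable def FF (z : ℂ) (d y : ℝ) : ℝ := z.re * Real.cos (y * d) - z.im * Real.sin (y * d)

lemma FF_eq (z : ℂ) (d y : ℝ) : FF z d y = (z * Complex.exp ((y * d : ℝ) * Complex.I)).re := by
  unfold FF
  rw [Complex.mul_re, Complex.exp_ofReal_mul_I_re, Complex.exp_ofReal_mul_I_im]

lemma FF_int {w : ℝ → ℝ} (H : SC w) {L : ℝ} (hL : 0 < L) (z : ℂ) (d : ℝ) :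
    Integrable (fun y : ℝ => w (y / L) * FF z d y) := by
  have h1 : Integrable (fun α : ℝ => w α * FF z d (L * α)) := by
    refine (H.cont.mul ?_).integrable_of_hasCompactSupport H.cs.mul_right
    unfold FF
    fun_prop
  have h2 := h1.comp_div hL.ne'
  refine h2.congr (ae_of_all _ fun y => ?_)
  show w (y / L) * FF z d (L * (y / L)) = w (y / L) * FF z d y
  rw [mul_div_cancel₀ _ hL.ne']

lemma FF_integral {w : ℝ → ℝ} (H : SC w) {L : ℝ} (hL : 0 < L) (z : ℂ) (d : ℝ) :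
    ∫ y : ℝ, w (y / L) * FF z d y = L * V w L z d := by
  have e1 : ∫ y : ℝ, w (y / L) * FF z d y = ∫ y : ℝ, (fun α : ℝ => w α * FF z d (L * α)) (y / L) := by
    congr 1
    funext y
    show w (y / L) * FF z d y = w (y / L) * FF z d (L * (y / L))
    rw [mul_div_cancel₀ _ hL.ne']
  rw [e1, Measure.integral_comp_div (fun α : ℝ => w α * FF z d (L * α)) L, abs_of_pos hL,
    smul_eq_mul]
  congr 1
  unfold V CT Pool.Agent.N804.ST FF
  have i1 := (H.int_cos (d * L / (2 * Real.pi))).const_mul z.re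
  have i2 := (H.int_sin (d * L / (2 * Real.pi))).const_mul z.im
  rw [← integral_const_mul, ← integral_const_mul, ← integral_sub i1 i2]
  congr 1
  funext α
  have hpi := Real.pi_ne_zero
  have e : 2 * Real.pi * α * (d * L / (2 * Real.pi)) = L * α * d := by field_simp
  rw [e]
  ring

end Pool.Agent.N704.PV3
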