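import Pool.Agent.N704.PV.CoreA

set_option autoImplicit false

/-!
# Project PV: the mean square of the sum over the zeros, abstract part (pairs)

Project PV (helper804), part PV3 (helper704).
-/

namespace Pool.Agent.N704.PV3

open Filter Topology Set MeasureTheory
open Pool.Agent.N804 (SC CT ST)
open Pool.Agent.N804.PV

section pows

variable {T M : ℝ}

lemma r1 (hT : 1 ≤ T) (hM : T ^ 2 < M) :
    T / M ^ 2 ≤ T ^ (-(1 / 2) : ℝ) * M ^ (-(5 / 4) : ℝ) := by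
  have hT0 : 0 < T := by linarith
  have hM0 : 0 < M := lt_trans (by positivity) hM
  have e1 : M ^ (-(2 : ℝ)) = M ^ (-(3 / 4) : ℝ) * M ^ (-(5 / 4) : ℝ) := by
    rw [← Real.rpow_add hM0]; norm_num
  have e2 : T / M ^ 2 = T * M ^ (-(2 : ℝ)) := by
    rw [Real.rpow_neg hM0.le, Real.rpow_two]; rfl
  have h3 : M ^ (-(3 / 4) : ℝ) ≤ (T ^ 2) ^ (-(3 / 4) : ℝ) :=
    Real.rpow_le_rpow_of_nonpos (by positivity) hM.le (by norm_num)
  have e4 : (T ^ 2) ^ (-(3 / 4) : ℝ) = T ^ (-(3 / 2) : ℝ) := by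
    rw [← Real.rpow_natCast T 2, ← Real.rpow_mul hT0.le]; norm_num
  have e5 : T * T ^ (-(3 / 2) : ℝ) = T ^ (-(1 / 2) : ℝ) := by
    nth_rewrite 1 [← Real.rpow_one T]
    rw [← Real.rpow_add hT0]; norm_num
  rw [e2, e1, ← e5, ← e4]
  have : 0 ≤ M ^ (-(5 / 4) : ℝ) := by positivity
  calc T * (M ^ (-(3 / 4) : ℝ) * M ^ (-(5 / 4) : ℝ))
      = T * M ^ (-(3 / 4) : ℝ) * M ^ (-(5 / 4) : ℝ) := by ring
    _ ≤ _ := by gcongr

lemma r2 (hT : 1 ≤ T) (hM0 : 0 < M) (hM : M ≤ T ^ 2) :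
    1 / T ^ 3 ≤ T ^ (-(1 / 2) : ℝ) * M ^ (-(5 / 4) : ℝ) := by
  have hT0 : 0 < T := by linarith
  have h1 : (T ^ 2) ^ (-(5 / 4) : ℝ) ≤ M ^ (-(5 / 4) : ℝ) :=
    Real.rpow_le_rpow_of_nonpos hM0 hM (by norm_num)
  have e4 : (T ^ 2) ^ (-(5 / 4) : ℝ) = T ^ (-(5 / 2) : ℝ) := by
    rw [← Real.rpow_natCast T 2, ← Real.rpow_mul hT0.le]; norm_num
  have e5 : 1 / T ^ 3 = T ^ (-(1 / 2) : ℝ) * T ^ (-(5 / 2) : ℝ) := by
    rw [← Real.rpow_add hT0, show (-(1 / 2) + -(5 / 2) : ℝ) = -((3 : ℕ) : ℝ) by norm_num,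
      Real.rpow_neg hT0.le, Real.rpow_natCast, one_div]
  rw [e5, ← e4]
  gcongr

lemma r3 (hT : 1 ≤ T) (hM0 : 0 < M) (hM : M ≤ T ^ 2) :
    1 / (T * M) ≤ T ^ (-(1 / 2) : ℝ) * M ^ (-(5 / 4) : ℝ) := by
  have hT0 : 0 < T := by linarith
  have h1 : M ^ ((1 : ℝ) / 4) ≤ (T ^ 2) ^ ((1 : ℝ) / 4) :=
    Real.rpow_le_rpow hM0.le hM (by norm_num)
  have e4 : (T ^ 2) ^ ((1 : ℝ) / 4) = T ^ ((1 : ℝ) / 2) := by
    rw [← Real.rpow_natCast T 2, ← Real.rpow_mul hT0.le]; norm_num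
  have e1 : 1 / M = M ^ ((1 : ℝ) / 4) * M ^ (-(5 / 4) : ℝ) := by
    rw [← Real.rpow_add hM0, show ((1 : ℝ) / 4 + -(5 / 4) : ℝ) = -1 by norm_num,
      Real.rpow_neg_one, one_div]
  have e2 : 1 / T * T ^ ((1 : ℝ) / 2) = T ^ (-(1 / 2) : ℝ) := by
    rw [one_div, ← Real.rpow_neg_one, ← Real.rpow_add hT0]; norm_num
  rw [one_div, mul_inv, ← one_div, ← one_div, e1, ← e2]
  have : 0 ≤ M ^ (-(5 / 4) : ℝ) := by positivity
  calc 1 / T * (M ^ ((1 : ℝ) / 4) * M ^ (-(5 / 4) : ℝ))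
      ≤ 1 / T * (T ^ ((1 : ℝ) / 2) * M ^ (-(5 / 4) : ℝ)) := by
        rw [← e4]; gcongr
    _ = _ := by ring

lemma r4 (hT : 1 ≤ T) (hM0 : 0 < M) :
    min (1 / T) (1 / M) ^ 2 ≤ T ^ (-(1 / 2) : ℝ) * M ^ (-(5 / 4) : ℝ) := by
  have hT0 : 0 < T := by linarith
  set μ := min (1 / T) (1 / M) with hμ
  have hμ0 : 0 < μ := lt_min (by positivity) (by positivity)
  have hμT : μ ≤ 1 / T := min_le_left _ _
  have hμM : μ ≤ 1 / M := min_le_right _ _
  have hμ1 : μ ≤ 1 := hμT.trans (by rw [div_le_one hT0]; exact hT)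
  have h1 : μ ^ 2 ≤ μ ^ ((7 : ℝ) / 4) := by
    rw [← Real.rpow_natCast μ 2]
    exact Real.rpow_le_rpow_of_exponent_ge hμ0 hμ1 (by norm_num)
  have e1 : μ ^ ((7 : ℝ) / 4) = μ ^ ((1 : ℝ) / 2) * μ ^ ((5 : ℝ) / 4) := by
    rw [← Real.rpow_add hμ0]; norm_num
  have h2 : μ ^ ((1 : ℝ) / 2) ≤ T ^ (-(1 / 2) : ℝ) := by
    rw [Real.rpow_neg hT0.le, ← Real.inv_rpow hT0.le, ← one_div]
    exact Real.rpow_le_rpow hμ0.le hμT (by norm_num)
  have h3 : μ ^ ((5 : ℝ) / 4) ≤ M ^ (-(5 / 4) : ℝ) := by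
    rw [Real.rpow_neg hM0.le, ← Real.inv_rpow hM0.le, ← one_div]
    exact Real.rpow_le_rpow hμ0.le hμM (by norm_num)
  rw [e1] at h1
  refine h1.trans ?_
  gcongr

lemma r5 {x y : ℝ} (hx : 0 < x) (hy : 0 < y) :
    1 / (1 + (x + y)) ^ 4 ≤ x ^ (-(5 / 4) : ℝ) * y ^ (-(5 / 4) : ℝ) := by
  have h0 : 1 ≤ 1 + (x + y) := by linarith
  have hz : 0 < 1 + (x + y) := by linarith
  have h1 : (1 + (x + y)) ^ ((5 : ℝ) / 2) ≤ (1 + (x + y)) ^ 4 := by
    rw [← Real.rpow_natCast (1 + (x + y)) 4]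
    exact Real.rpow_le_rpow_of_exponent_le h0 (by norm_num)
  have e : (1 + (x + y)) ^ ((5 : ℝ) / 2) =
      (1 + (x + y)) ^ ((5 : ℝ) / 4) * (1 + (x + y)) ^ ((5 : ℝ) / 4) := by
    rw [← Real.rpow_add hz]; norm_num
  have h2 : x ^ ((5 : ℝ) / 4) ≤ (1 + (x + y)) ^ ((5 : ℝ) / 4) :=
    Real.rpow_le_rpow hx.le (by linarith) (by norm_num)
  have h3 : y ^ ((5 : ℝ) / 4) ≤ (1 + (x + y)) ^ ((5 : ℝ) / 4) :=
    Real.rpow_le_rpow hy.le (by linarith) (by norm_num)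
  rw [Real.rpow_neg hx.le, Real.rpow_neg hy.le, ← mul_inv, one_div]
  refine inv_anti₀ (by positivity) ?_
  rw [e] at h1
  refine le_trans ?_ h1
  gcongr

end pows

/-- The coefficient with the Gaussian factor. -/
noncomputable def bb (a : ℝ → ℂ) (ε γ : ℝ) : ℂ := a γ * (Real.exp (-(ε ^ 2 * γ ^ 2 / 2)) : ℝ)

/-- The properties of the coefficients. -/
structure Coef (h0 C T : ℝ) (a : ℝ → ℂ) : Prop where
  hp : 0 < h0
  hC : 0 < C
  b1 : ∀ γ : ℝ, h0 ≤ γ → ‖a γ‖ ≤ C / T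
  b2 : ∀ γ : ℝ, h0 ≤ γ → ‖a γ‖ ≤ C / γ
  b3 : ∀ γ γ' : ℝ, h0 ≤ γ → h0 ≤ γ' →
    ‖a γ - a γ'‖ ≤ C * |γ - γ'| / T * min (1 / T) (1 / min γ γ')
  b4 : ∀ γ : ℝ, h0 ≤ γ → |T ^ 2 * ‖a γ‖ ^ 2 - ph (γ / T)| ≤ C / γ

lemma norm_bb (a : ℝ → ℂ) (ε γ : ℝ) : ‖bb a ε γ‖ ≤ ‖a γ‖ := by
  unfold bb
  rw [norm_mul, Complex.norm_real, Real.norm_eq_abs, abs_of_pos (Real.exp_pos _)]
  refine mul_le_of_le_one_right (norm_nonneg _) ?_
  rw [Real.exp_le_one_iff]
  have : 0 ≤ ε ^ 2 * γ ^ 2 / 2 := by positivity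
  linarith

lemma inv_min {h0 γ γ' : ℝ} (hh : 0 < h0) (h1 : h0 ≤ γ) (h2 : h0 ≤ γ') :
    1 / min γ γ' ≤ (1 + 1 / h0) * (1 + |γ - γ'|) * (1 / max γ γ') := by
  have hm : 0 < min γ γ' := lt_of_lt_of_le hh (le_min h1 h2)
  have hM : 0 < max γ γ' := lt_of_lt_of_le hm (min_le_max)
  have e : max γ γ' = min γ γ' + |γ - γ'| := by
    have := max_sub_min_eq_abs γ γ'
    rw [abs_sub_comm]
    linarith [max_sub_min_eq_abs γ γ']
  rw [mul_one_div, div_le_div_iff₀ hm hM, one_mul, e]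
  have hd := abs_nonneg (γ - γ')
  have h3 : h0 ≤ min γ γ' := le_min h1 h2
  have h4 : 1 ≤ min γ γ' / h0 := by rw [le_div_iff₀ hh]; linarith
  have h5 : (1 + 1 / h0) * (1 + |γ - γ'|) * min γ γ' =
      min γ γ' + |γ - γ'| * min γ γ' + min γ γ' / h0 + |γ - γ'| * (min γ γ' / h0) := by
    field_simp
    ring
  rw [h5]
  have h6 : |γ - γ'| ≤ |γ - γ'| * (min γ γ' / h0) := le_mul_of_one_le_right hd h4
  have h7 : 0 ≤ |γ - γ'| * min γ γ' := by positivity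
  have h8 : 0 ≤ min γ γ' / h0 := by positivity
  linarith

lemma quart (d : ℝ) : 1 + d ^ 2 ≤ (1 + |d|) ^ 2 := by
  have := abs_nonneg d
  have e : d ^ 2 = |d| ^ 2 := (sq_abs d).symm
  nlinarith

/-- The pairs with the same sign. -/
lemma pair {w : ℝ → ℝ} {A : ℝ} (hA : 0 ≤ A) (hd : ∀ x : ℝ,
    |CT w x| ≤ A / (1 + |x|) ^ 4 ∧ |ST w x| ≤ A / (1 + |x|) ^ 4) {L : ℝ} (hL : 2 * Real.pi ≤ L)
    {h0 C T : ℝ} {a : ℝ → ℂ} (H : Coef h0 C T a) (hT : 1 ≤ T) {ε : ℝ} (hε : 0 < ε)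
    (hε3 : ε ≤ 1 / T ^ 3) {γ γ' : ℝ} (h1 : h0 ≤ γ) (h2 : h0 ≤ γ') :
    |2 * T / L * V w L (bb a ε γ * (starRingEnd ℂ) (bb a ε γ')) (γ - γ') -
      (if γ ≤ T ^ 2 ∧ γ' ≤ T ^ 2 then 2 / (T * L) * (ph (max γ γ' / T) *
        CT w ((γ - γ') * L / (2 * Real.pi))) else 0)| ≤
      (4 * A * C ^ 2 * (1 + 1 / h0) * 2 + 4 * A * C ^ 2 + 2 * C * A) * (T ^ (-(1 / 2) : ℝ) *
        ((max γ γ') ^ (-(5 / 4) : ℝ) / (1 + (γ - γ') ^ 2))) := by
  have hpi := Real.pi_gt_three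
  have hT0 : 0 < T := by linarith
  have hL1 : 1 ≤ L := by linarith
  have hL0 : 0 < L := by linarith
  have hC := H.hC
  have hh := H.hp
  have hg : 0 < γ := lt_of_lt_of_le hh h1
  have hg' : 0 < γ' := lt_of_lt_of_le hh h2
  set M := max γ γ' with hM
  set mn := min γ γ' with hmn
  set d := γ - γ' with hdd
  have hM0 : 0 < M := lt_of_lt_of_le hg (le_max_left _ _)
  have hm0 : 0 < mn := lt_min hg hg'
  set c := 1 + 1 / h0 with hc
  have hc1 : 1 ≤ c := by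
    have : 0 < 1 / h0 := by positivity
    linarith
  have him : 1 / mn ≤ c * (1 + |d|) * (1 / M) := inv_min hh h1 h2
  set pq := T ^ (-(1 / 2) : ℝ) * M ^ (-(5 / 4) : ℝ) with hpq
  have hpq0 : 0 ≤ pq := by positivity
  have hdn := abs_nonneg d
  have e0 : T ^ (-(1 / 2) : ℝ) * (M ^ (-(5 / 4) : ℝ) / (1 + d ^ 2)) = pq / (1 + d ^ 2) := by
    rw [hpq]; ring
  rw [e0]
  have hq := quart d
  have hq1 : 1 ≤ 1 + d ^ 2 := by nlinarith [sq_nonneg d]
  have h1d : 1 ≤ 1 + |d| := by linarith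
  -- comparison of the weights
  have k4 : 1 / (1 + |d|) ^ 4 ≤ 1 / (1 + d ^ 2) := by
    refine one_div_le_one_div_of_le (by positivity) ?_
    calc 1 + d ^ 2 ≤ (1 + |d|) ^ 2 := hq
      _ ≤ (1 + |d|) ^ 4 := pow_le_pow_right₀ h1d (by norm_num)
  have hTL : 2 * T / L ≤ 2 * T := by
    rw [div_le_iff₀ hL0]
    nlinarith
  have hTL0 : 0 ≤ 2 * T / L := by positivity
  have hnb : ‖bb a ε γ * (starRingEnd ℂ) (bb a ε γ')‖ ≤ ‖a γ‖ * ‖a γ'‖ := by
    rw [norm_mul, Complex.norm_conj]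
    exact mul_le_mul (norm_bb a ε γ) (norm_bb a ε γ') (norm_nonneg _) (norm_nonneg _)
  by_cases hcase : γ ≤ T ^ 2 ∧ γ' ≤ T ^ 2
  · rw [if_pos hcase]
    have hMT : M ≤ T ^ 2 := max_le hcase.1 hcase.2
    -- `a_M`
    have haM : ∃ γM : ℝ, γM = M ∧ h0 ≤ γM ∧ ‖a γ * (starRingEnd ℂ) (a γ') -
        ((‖a γM‖ ^ 2 : ℝ) : ℂ)‖ ≤ ‖a γM‖ * ‖a γ - a γ'‖ := by
      have key : ∀ z : ℂ, ((‖z‖ ^ 2 : ℝ) : ℂ) = z * (starRingEnd ℂ) z := by
        intro z
        rw [Complex.mul_conj, Complex.normSq_eq_norm_sq]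
      rcases le_total γ γ' with h | h
      · refine ⟨γ', by rw [hM, max_eq_right h], h2, ?_⟩
        rw [key, ← sub_mul, norm_mul, Complex.norm_conj, mul_comm]
      · refine ⟨γ, by rw [hM, max_eq_left h], h1, ?_⟩
        rw [key, ← mul_sub, ← map_sub, norm_mul, Complex.norm_conj, norm_sub_rev]
    obtain ⟨γM, hγM, hγh, hdiff⟩ := haM
    set E : ℝ := Real.exp (-(ε ^ 2 * γ ^ 2 / 2)) * Real.exp (-(ε ^ 2 * γ' ^ 2 / 2)) with hE
    have ebb : bb a ε γ * (starRingEnd ℂ) (bb a ε γ') =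
        (a γ * (starRingEnd ℂ) (a γ')) * (E : ℂ) := by
      unfold bb
      rw [map_mul, Complex.conj_ofReal, hE, Complex.ofReal_mul]
      ring
    have hEle : E ≤ 1 := by
      rw [hE, ← Real.exp_add, Real.exp_le_one_iff]
      have : 0 ≤ ε ^ 2 * γ ^ 2 / 2 := by positivity
      have : 0 ≤ ε ^ 2 * γ' ^ 2 / 2 := by positivity
      linarith
    have hEge : 1 - E ≤ 1 / T ^ 2 := by
      have h3 : 1 - (ε ^ 2 * γ ^ 2 / 2 + ε ^ 2 * γ' ^ 2 / 2) ≤ E := by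
        rw [hE, ← Real.exp_add]
        have := Real.add_one_le_exp (-(ε ^ 2 * γ ^ 2 / 2) + -(ε ^ 2 * γ' ^ 2 / 2))
        linarith
      have h4 : ε ^ 2 ≤ (1 / T ^ 3) ^ 2 := pow_le_pow_left₀ hε.le hε3 2
      have h5 : γ ^ 2 ≤ (T ^ 2) ^ 2 := pow_le_pow_left₀ hg.le hcase.1 2
      have h6 : γ' ^ 2 ≤ (T ^ 2) ^ 2 := pow_le_pow_left₀ hg'.le hcase.2 2
      have h7 : ε ^ 2 * γ ^ 2 ≤ (1 / T ^ 3) ^ 2 * (T ^ 2) ^ 2 :=
        mul_le_mul h4 h5 (by positivity) (by positivity)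
      have h8 : ε ^ 2 * γ' ^ 2 ≤ (1 / T ^ 3) ^ 2 * (T ^ 2) ^ 2 :=
        mul_le_mul h4 h6 (by positivity) (by positivity)
      have e9 : (1 / T ^ 3) ^ 2 * (T ^ 2) ^ 2 = 1 / T ^ 2 := by
        field_simp
      rw [e9] at h7 h8
      linarith
    -- the three differences
    have X1 : |2 * T / L * V w L (a γ * (starRingEnd ℂ) (a γ') * (E : ℂ)) d -
        2 * T / L * V w L (a γ * (starRingEnd ℂ) (a γ')) d| ≤
        4 * A * C ^ 2 * (pq / (1 + d ^ 2)) := by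
      rw [← mul_sub, ← V_sub, abs_mul, abs_of_nonneg hTL0]
      have hn : ‖a γ * (starRingEnd ℂ) (a γ') * (E : ℂ) - a γ * (starRingEnd ℂ) (a γ')‖ ≤
          C ^ 2 / T ^ 2 * (1 / T ^ 2) := by
        have e : a γ * (starRingEnd ℂ) (a γ') * (E : ℂ) - a γ * (starRingEnd ℂ) (a γ') =
            -(a γ * (starRingEnd ℂ) (a γ') * ((1 - E : ℝ) : ℂ)) := by
          push_cast; ring
        rw [e, norm_neg, norm_mul, norm_mul, Complex.norm_conj, Complex.norm_real,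
          Real.norm_eq_abs, abs_of_nonneg (by linarith)]
        refine mul_le_mul ?_ hEge (by linarith) (by positivity)
        calc ‖a γ‖ * ‖a γ'‖ ≤ (C / T) * (C / T) :=
              mul_le_mul (H.b1 γ h1) (H.b1 γ' h2) (norm_nonneg _) (by positivity)
          _ = C ^ 2 / T ^ 2 := by ring
      have hV := V_bd hA hd hL (a γ * (starRingEnd ℂ) (a γ') * (E : ℂ) -
        a γ * (starRingEnd ℂ) (a γ')) d
      calc 2 * T / L * |V w L (a γ * (starRingEnd ℂ) (a γ') * (E : ℂ) -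
            a γ * (starRingEnd ℂ) (a γ')) d|
          ≤ 2 * T * (2 * A * (C ^ 2 / T ^ 2 * (1 / T ^ 2)) / (1 + |d|) ^ 4) := by
            refine mul_le_mul hTL (hV.trans ?_) (abs_nonneg _) (by positivity)
            gcongr
        _ = 4 * A * C ^ 2 * (1 / T ^ 3 * (1 / (1 + |d|) ^ 4)) := by
            field_simp
            ring
        _ ≤ 4 * A * C ^ 2 * (pq * (1 / (1 + d ^ 2))) := by
            have := r2 hT hM0 hMT
            gcongr
        _ = _ := by ring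
    have X2 : |2 * T / L * V w L (a γ * (starRingEnd ℂ) (a γ')) d -
        2 * T / L * V w L ((‖a γM‖ ^ 2 : ℝ) : ℂ) d| ≤
        4 * A * C ^ 2 * c * (pq / (1 + d ^ 2)) := by
      rw [← mul_sub, ← V_sub, abs_mul, abs_of_nonneg hTL0]
      set μ := min (1 / T) (1 / M) with hμ
      have hμ0 : 0 < μ := lt_min (by positivity) (by positivity)
      have haMμ : ‖a γM‖ ≤ C * μ := by
        rw [hμ, mul_min_of_nonneg _ _ hC.le]
        refine le_min ?_ ?_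
        · rw [mul_one_div]; exact H.b1 γM hγh
        · rw [mul_one_div, ← hγM]; exact H.b2 γM hγh
      have hmin : min (1 / T) (1 / mn) ≤ c * (1 + |d|) * μ := by
        have h9 : 1 ≤ c * (1 + |d|) := one_le_mul_of_one_le_of_one_le hc1 h1d
        rw [hμ, mul_min_of_nonneg _ _ (by positivity)]
        refine le_min ((min_le_left _ _).trans ?_) ((min_le_right _ _).trans him)
        exact le_mul_of_one_le_left (by positivity) h9
      have hn : ‖a γ * (starRingEnd ℂ) (a γ') - ((‖a γM‖ ^ 2 : ℝ) : ℂ)‖ ≤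
          C ^ 2 * c * (1 + |d|) ^ 2 * μ ^ 2 / T := by
        refine hdiff.trans ?_
        calc ‖a γM‖ * ‖a γ - a γ'‖ ≤ (C * μ) * (C * |d| / T * (c * (1 + |d|) * μ)) := by
              refine mul_le_mul haMμ ((H.b3 γ γ' h1 h2).trans ?_) (norm_nonneg _) (by positivity)
              gcongr
          _ = C ^ 2 * c * (|d| * (1 + |d|)) * μ ^ 2 / T := by ring
          _ ≤ C ^ 2 * c * (1 + |d|) ^ 2 * μ ^ 2 / T := by
              have : |d| * (1 + |d|) ≤ (1 + |d|) ^ 2 := by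
                rw [pow_two]
                exact mul_le_mul_of_nonneg_right (by linarith) (by linarith)
              gcongr
      have hV := V_bd hA hd hL (a γ * (starRingEnd ℂ) (a γ') - ((‖a γM‖ ^ 2 : ℝ) : ℂ)) d
      calc 2 * T / L * |V w L (a γ * (starRingEnd ℂ) (a γ') - ((‖a γM‖ ^ 2 : ℝ) : ℂ)) d|
          ≤ 2 * T * (2 * A * (C ^ 2 * c * (1 + |d|) ^ 2 * μ ^ 2 / T) / (1 + |d|) ^ 4) := by
            refine mul_le_mul hTL (hV.trans ?_) (abs_nonneg _) (by positivity)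
            gcongr
        _ = 4 * A * C ^ 2 * c * (μ ^ 2 * (1 / (1 + |d|) ^ 2)) := by
            field_simp
            ring
        _ ≤ 4 * A * C ^ 2 * c * (pq * (1 / (1 + d ^ 2))) := by
            have h10 := r4 hT hM0
            have h11 : 1 / (1 + |d|) ^ 2 ≤ 1 / (1 + d ^ 2) :=
              one_div_le_one_div_of_le (by positivity) hq
            gcongr
        _ = _ := by ring
    have X3 : |2 * T / L * V w L ((‖a γM‖ ^ 2 : ℝ) : ℂ) d -
        2 / (T * L) * (ph (M / T) * CT w (d * L / (2 * Real.pi)))| ≤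
        2 * C * A * (pq / (1 + d ^ 2)) := by
      rw [V_real]
      have e : 2 * T / L * (‖a γM‖ ^ 2 * CT w (d * L / (2 * Real.pi))) -
          2 / (T * L) * (ph (M / T) * CT w (d * L / (2 * Real.pi))) =
          2 / (T * L) * ((T ^ 2 * ‖a γM‖ ^ 2 - ph (γM / T)) * CT w (d * L / (2 * Real.pi))) := by
        rw [hγM]
        field_simp
      rw [e, abs_mul, abs_mul, abs_of_nonneg (by positivity : 0 ≤ 2 / (T * L))]
      have h12 : |CT w (d * L / (2 * Real.pi))| ≤ A / (1 + |d|) ^ 4 := by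
        refine (hd _).1.trans ?_
        have : |d| ≤ |d * L / (2 * Real.pi)| := by
          rw [abs_div, abs_mul, abs_of_pos (by positivity : 0 < 2 * Real.pi), abs_of_pos hL0,
            le_div_iff₀ (by positivity)]
          exact mul_le_mul_of_nonneg_left hL hdn
        gcongr
      have h13 := H.b4 γM hγh
      have h14 : 2 / (T * L) ≤ 2 / T := by
        refine div_le_div_of_nonneg_left (by norm_num) hT0 ?_
        exact le_mul_of_one_le_right hT0.le hL1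
      calc 2 / (T * L) * (|T ^ 2 * ‖a γM‖ ^ 2 - ph (γM / T)| *
            |CT w (d * L / (2 * Real.pi))|)
          ≤ 2 / T * ((C / M) * (A / (1 + |d|) ^ 4)) := by
            refine mul_le_mul h14 (mul_le_mul (by rw [← hγM]; exact h13) h12 (abs_nonneg _)
              (by positivity)) (by positivity) (by positivity)
        _ = 2 * C * A * (1 / (T * M) * (1 / (1 + |d|) ^ 4)) := by
            field_simp
        _ ≤ 2 * C * A * (pq * (1 / (1 + d ^ 2))) := by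
            have := r3 hT hM0 hMT
            gcongr
        _ = _ := by ring
    rw [ebb]
    have h20 : 0 ≤ 4 * A * C ^ 2 * c * (pq / (1 + d ^ 2)) := by positivity
    calc |2 * T / L * V w L (a γ * (starRingEnd ℂ) (a γ') * (E : ℂ)) d -
          2 / (T * L) * (ph (M / T) * CT w (d * L / (2 * Real.pi)))|
        ≤ |2 * T / L * V w L (a γ * (starRingEnd ℂ) (a γ') * (E : ℂ)) d -
          2 * T / L * V w L (a γ * (starRingEnd ℂ) (a γ')) d| +
          |2 * T / L * V w L (a γ * (starRingEnd ℂ) (a γ')) d -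
          2 * T / L * V w L ((‖a γM‖ ^ 2 : ℝ) : ℂ) d| +
          |2 * T / L * V w L ((‖a γM‖ ^ 2 : ℝ) : ℂ) d -
          2 / (T * L) * (ph (M / T) * CT w (d * L / (2 * Real.pi)))| := by
          have := abs_add_three (2 * T / L * V w L (a γ * (starRingEnd ℂ) (a γ') * (E : ℂ)) d -
            2 * T / L * V w L (a γ * (starRingEnd ℂ) (a γ')) d)
            (2 * T / L * V w L (a γ * (starRingEnd ℂ) (a γ')) d -
            2 * T / L * V w L ((‖a γM‖ ^ 2 : ℝ) : ℂ) d)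
            (2 * T / L * V w L ((‖a γM‖ ^ 2 : ℝ) : ℂ) d -
            2 / (T * L) * (ph (M / T) * CT w (d * L / (2 * Real.pi))))
          refine le_trans (le_of_eq ?_) this
          congr 1
          ring
      _ ≤ 4 * A * C ^ 2 * (pq / (1 + d ^ 2)) + 4 * A * C ^ 2 * c * (pq / (1 + d ^ 2)) +
          2 * C * A * (pq / (1 + d ^ 2)) := add_le_add (add_le_add X1 X2) X3
      _ ≤ _ := by linarith
  · rw [if_neg hcase, sub_zero, abs_mul, abs_of_nonneg hTL0]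
    have hMT : T ^ 2 < M := by
      by_contra hcon
      rw [not_lt] at hcon
      exact hcase ⟨(le_max_left _ _).trans hcon, (le_max_right _ _).trans hcon⟩
    have hn : ‖bb a ε γ * (starRingEnd ℂ) (bb a ε γ')‖ ≤ C ^ 2 * c * (1 + |d|) / M ^ 2 := by
      refine hnb.trans ?_
      calc ‖a γ‖ * ‖a γ'‖ ≤ (C / γ) * (C / γ') :=
            mul_le_mul (H.b2 γ h1) (H.b2 γ' h2) (norm_nonneg _) (by positivity)
        _ = C ^ 2 * (1 / (γ * γ')) := by field_simp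
        _ = C ^ 2 * (1 / M * (1 / mn)) := by
            rw [hM, hmn, ← max_mul_min γ γ']
            congr 1
            field_simp
        _ ≤ C ^ 2 * (1 / M * (c * (1 + |d|) * (1 / M))) := by gcongr
        _ = _ := by field_simp
    have hV := V_bd hA hd hL (bb a ε γ * (starRingEnd ℂ) (bb a ε γ')) d
    calc 2 * T / L * |V w L (bb a ε γ * (starRingEnd ℂ) (bb a ε γ')) d|
        ≤ 2 * T * (2 * A * (C ^ 2 * c * (1 + |d|) / M ^ 2) / (1 + |d|) ^ 4) := by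
          refine mul_le_mul hTL (hV.trans ?_) (abs_nonneg _) (by positivity)
          gcongr
      _ = 4 * A * C ^ 2 * c * (T / M ^ 2 * (1 / (1 + |d|) ^ 3)) := by
          field_simp
          ring
      _ ≤ 4 * A * C ^ 2 * c * (pq * (1 / (1 + d ^ 2))) := by
          have h10 := r1 hT hMT
          have h11 : 1 / (1 + |d|) ^ 3 ≤ 1 / (1 + d ^ 2) :=
            one_div_le_one_div_of_le (by positivity)
              (hq.trans (pow_le_pow_right₀ h1d (by norm_num)))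
          gcongr
      _ = 4 * A * C ^ 2 * c * (pq / (1 + d ^ 2)) := by ring
      _ ≤ _ := by
          have h21 : 0 ≤ pq / (1 + d ^ 2) := by positivity
          refine mul_le_mul_of_nonneg_right ?_ h21
          have : 0 ≤ 4 * A * C ^ 2 * c := by positivity
          have : 0 ≤ 4 * A * C ^ 2 := by positivity
          have : 0 ≤ 2 * C * A := by positivity
          linarith

/-- The pairs with opposite signs. -/
lemma pair' {w : ℝ → ℝ} {A : ℝ} (hA : 0 ≤ A) (hd : ∀ x : ℝ,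
    |CT w x| ≤ A / (1 + |x|) ^ 4 ∧ |ST w x| ≤ A / (1 + |x|) ^ 4) {L : ℝ} (hL : 2 * Real.pi ≤ L)
    {h0 C T : ℝ} {a : ℝ → ℂ} (H : Coef h0 C T a) (hT : 1 ≤ T) {ε : ℝ}
    {γ γ' : ℝ} (h1 : h0 ≤ γ) (h2 : h0 ≤ γ') :
    |2 * T / L * V w L (bb a ε γ * bb a ε γ') (γ + γ')| ≤
      4 * A * C ^ 2 * (T ^ (-(1 / 2) : ℝ) * (γ ^ (-(5 / 4) : ℝ) * γ' ^ (-(5 / 4) : ℝ))) := by
  have hpi := Real.pi_gt_three
  have hT0 : 0 < T := by linarith
  have hL1 : 1 ≤ L := by linarith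
  have hL0 : 0 < L := by linarith
  have hC := H.hC
  have hh := H.hp
  have hg : 0 < γ := lt_of_lt_of_le hh h1
  have hg' : 0 < γ' := lt_of_lt_of_le hh h2
  have hTL : 2 * T / L ≤ 2 * T := by
    rw [div_le_iff₀ hL0]
    nlinarith
  have hTL0 : 0 ≤ 2 * T / L := by positivity
  have hnb : ‖bb a ε γ * bb a ε γ'‖ ≤ C ^ 2 / T ^ 2 := by
    rw [norm_mul]
    calc ‖bb a ε γ‖ * ‖bb a ε γ'‖ ≤ (C / T) * (C / T) :=
          mul_le_mul ((norm_bb a ε γ).trans (H.b1 γ h1)) ((norm_bb a ε γ').trans (H.b1 γ' h2))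
            (norm_nonneg _) (by positivity)
      _ = C ^ 2 / T ^ 2 := by ring
  have hV := V_bd hA hd hL (bb a ε γ * bb a ε γ') (γ + γ')
  rw [abs_of_pos (by linarith : 0 < γ + γ')] at hV
  rw [abs_mul, abs_of_nonneg hTL0]
  have h3 : 1 / T ≤ T ^ (-(1 / 2) : ℝ) := by
    rw [one_div, ← Real.rpow_neg_one]
    exact Real.rpow_le_rpow_of_exponent_le hT (by norm_num)
  calc 2 * T / L * |V w L (bb a ε γ * bb a ε γ') (γ + γ')|
      ≤ 2 * T * (2 * A * (C ^ 2 / T ^ 2) / (1 + (γ + γ')) ^ 4) := by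
        refine mul_le_mul hTL (hV.trans ?_) (abs_nonneg _) (by positivity)
        gcongr
    _ = 4 * A * C ^ 2 * (1 / T * (1 / (1 + (γ + γ')) ^ 4)) := by
        field_simp
        ring
    _ ≤ 4 * A * C ^ 2 * (T ^ (-(1 / 2) : ℝ) * (γ ^ (-(5 / 4) : ℝ) * γ' ^ (-(5 / 4) : ℝ))) := by
        have := r5 hg hg'
        gcongr

end Pool.Agent.N704.PV3
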