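import Pool.Agent.N704.PV.CoreB

set_option autoImplicit false

/-!
# Project PV: the mean square of the sum over the zeros, abstract part (sums)

Project PV (helper804), part PV3 (helper704).
-/

namespace Pool.Agent.N704.PV3

open Filter Topology Set MeasureTheory
open Pool.Agent.N804 (SC CT ST)
open Pool.Agent.N804.PV

lemma FF_mul (z z' : ℂ) (d d' y : ℝ) : FF z d y * FF z' d' y =
    (FF (z * (starRingEnd ℂ) z') (d - d') y + FF (z * z') (d + d') y) / 2 := by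
  unfold FF
  rw [mul_sub y, mul_add y, Real.cos_sub, Real.sin_sub, Real.cos_add, Real.sin_add]
  simp only [Complex.mul_re, Complex.mul_im, Complex.conj_re, Complex.conj_im]
  ring

section sums

variable {ι : Type} (S : Finset ι) (g m : ι → ℝ) (b : ι → ℂ)

lemma sq_expand (y : ℝ) : (2 * ∑ i ∈ S, m i * FF (b i) (g i) y) ^ 2 =
    ∑ i ∈ S, ∑ j ∈ S, 2 * (m i * m j) * (FF (b i * (starRingEnd ℂ) (b j)) (g i - g j) y +
      FF (b i * b j) (g i + g j) y) := by
  have e : (2 * ∑ i ∈ S, m i * FF (b i) (g i) y) ^ 2 =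
      4 * ((∑ i ∈ S, m i * FF (b i) (g i) y) * (∑ j ∈ S, m j * FF (b j) (g j) y)) := by ring
  rw [e, Finset.sum_mul_sum, Finset.mul_sum]
  refine Finset.sum_congr rfl fun i _ => ?_
  rw [Finset.mul_sum]
  refine Finset.sum_congr rfl fun j _ => ?_
  have := FF_mul (b i) (b j) (g i) (g j) y
  calc 4 * (m i * FF (b i) (g i) y * (m j * FF (b j) (g j) y))
      = 4 * (m i * m j) * (FF (b i) (g i) y * FF (b j) (g j) y) := by ring
    _ = _ := by rw [this]; ring

lemma integral_sq {w : ℝ → ℝ} (H : SC w) {L : ℝ} (hL : 0 < L) :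
    ∫ y : ℝ, w (y / L) * (2 * ∑ i ∈ S, m i * FF (b i) (g i) y) ^ 2 =
    ∑ i ∈ S, ∑ j ∈ S, 2 * (m i * m j) * (L * V w L (b i * (starRingEnd ℂ) (b j)) (g i - g j) +
      L * V w L (b i * b j) (g i + g j)) := by
  have e : ∀ y : ℝ, w (y / L) * (2 * ∑ i ∈ S, m i * FF (b i) (g i) y) ^ 2 =
      ∑ i ∈ S, ∑ j ∈ S, 2 * (m i * m j) *
        (w (y / L) * FF (b i * (starRingEnd ℂ) (b j)) (g i - g j) y +
        w (y / L) * FF (b i * b j) (g i + g j) y) := by
    intro y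
    rw [sq_expand, Finset.mul_sum]
    refine Finset.sum_congr rfl fun i _ => ?_
    rw [Finset.mul_sum]
    refine Finset.sum_congr rfl fun j _ => ?_
    ring
  simp_rw [e]
  rw [integral_finsetSum]
  · refine Finset.sum_congr rfl fun i _ => ?_
    rw [integral_finsetSum]
    · refine Finset.sum_congr rfl fun j _ => ?_
      rw [integral_const_mul, integral_add (FF_int H hL _ _) (FF_int H hL _ _),
        FF_integral H hL, FF_integral H hL]
    · intro j _
      exact ((FF_int H hL _ _).add (FF_int H hL _ _)).const_mul _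
  · intro i _
    refine integrable_finsetSum _ fun j _ => ?_
    exact ((FF_int H hL _ _).add (FF_int H hL _ _)).const_mul _

end sums

/-- The abstract estimate. -/
theorem core {w : ℝ → ℝ} (Hw : SC w) {h0 C C1 : ℝ} (hC1 : 0 ≤ C1) : ∃ D : ℝ, 0 ≤ D ∧
    ∀ (T L ε : ℝ) (a : ℝ → ℂ), 2 * Real.pi ≤ L → Coef h0 C T a → 1 ≤ T → 0 < ε → ε ≤ 1 / T ^ 3 →
    ∀ (ι : Type) (S : Finset ι) (g m : ι → ℝ), (∀ i ∈ S, h0 ≤ g i ∧ 0 ≤ m i) →
    (∀ t : ℝ, 0 < t → ∑ i ∈ S, m i / (1 + (t - g i) ^ 2) ≤ C1 * Real.log (t + 2)) →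
    (∑ i ∈ S, m i * g i ^ (-(5 / 4 : ℝ)) * Real.log (g i + 2) ≤ C1) →
    |T / L ^ 2 * (∫ y : ℝ, w (y / L) * (2 * ∑ i ∈ S, m i * FF (bb a ε (g i)) (g i) y) ^ 2) -
      ∑ i ∈ S, ∑ j ∈ S, m i * m j * (if g i ≤ T ^ 2 ∧ g j ≤ T ^ 2 then
        2 / (T * L) * (ph (max (g i) (g j) / T) * CT w ((g i - g j) * L / (2 * Real.pi)))
        else 0)| ≤ D * T ^ (-(1 / 2) : ℝ) := by
  obtain ⟨A, hA, hd⟩ := dec Hw
  refine ⟨|4 * A * C ^ 2 * (1 + 1 / h0) * 2 + 4 * A * C ^ 2 + 2 * C * A| * (C1 * C1) +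
    4 * A * C ^ 2 * (2 * C1 * (2 * C1)), by positivity, ?_⟩
  intro T L ε a hL H hT hε hε3 ι S g m hS n1 n5
  have hpi := Real.pi_gt_three
  have hT0 : 0 < T := by linarith
  have hL0 : 0 < L := by linarith
  have hh := H.hp
  have hC := H.hC
  set D1 := 4 * A * C ^ 2 * (1 + 1 / h0) * 2 + 4 * A * C ^ 2 + 2 * C * A with hD1
  have hD1' : D1 ≤ |D1| := le_abs_self _
  set p := T ^ (-(1 / 2) : ℝ) with hp
  have hp0 : 0 ≤ p := by positivity
  have hg : ∀ i ∈ S, 0 < g i := fun i hi => lt_of_lt_of_le hh (hS i hi).1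
  rw [integral_sq S g m (fun i => bb a ε (g i)) Hw hL0, Finset.mul_sum, ← Finset.sum_sub_distrib]
  have e1 : ∀ i ∈ S, (T / L ^ 2 * ∑ j ∈ S, 2 * (m i * m j) *
      (L * V w L (bb a ε (g i) * (starRingEnd ℂ) (bb a ε (g j))) (g i - g j) +
      L * V w L (bb a ε (g i) * bb a ε (g j)) (g i + g j)) -
      ∑ j ∈ S, m i * m j * (if g i ≤ T ^ 2 ∧ g j ≤ T ^ 2 then
        2 / (T * L) * (ph (max (g i) (g j) / T) * CT w ((g i - g j) * L / (2 * Real.pi)))
        else 0)) = ∑ j ∈ S, (m i * m j * (2 * T / L *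
          V w L (bb a ε (g i) * (starRingEnd ℂ) (bb a ε (g j))) (g i - g j) -
          (if g i ≤ T ^ 2 ∧ g j ≤ T ^ 2 then
        2 / (T * L) * (ph (max (g i) (g j) / T) * CT w ((g i - g j) * L / (2 * Real.pi)))
        else 0)) + m i * m j * (2 * T / L *
          V w L (bb a ε (g i) * bb a ε (g j)) (g i + g j))) := by
    intro i _
    rw [Finset.mul_sum, ← Finset.sum_sub_distrib]
    refine Finset.sum_congr rfl fun j _ => ?_
    field_simp
    ring
  rw [Finset.sum_congr rfl e1]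
  have b1 : ∀ i ∈ S, ∀ j ∈ S, |m i * m j * (2 * T / L *
          V w L (bb a ε (g i) * (starRingEnd ℂ) (bb a ε (g j))) (g i - g j) -
          (if g i ≤ T ^ 2 ∧ g j ≤ T ^ 2 then
        2 / (T * L) * (ph (max (g i) (g j) / T) * CT w ((g i - g j) * L / (2 * Real.pi)))
        else 0)) + m i * m j * (2 * T / L *
          V w L (bb a ε (g i) * bb a ε (g j)) (g i + g j))| ≤
        |D1| * p * (m i * g i ^ (-(5 / 4) : ℝ) * (m j / (1 + (g i - g j) ^ 2))) +
        4 * A * C ^ 2 * p * ((m i * g i ^ (-(5 / 4) : ℝ)) * (m j * g j ^ (-(5 / 4) : ℝ))) := by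
    intro i hi j hj
    have hmi := (hS i hi).2
    have hmj := (hS j hj).2
    have hgi := hg i hi
    have P1 := pair hA hd hL H hT hε hε3 (hS i hi).1 (hS j hj).1
    have P2 := pair' (w := w) (ε := ε) hA hd hL H hT (hS i hi).1 (hS j hj).1
    refine (abs_add_le _ _).trans (add_le_add ?_ ?_)
    · rw [abs_mul, abs_of_nonneg (mul_nonneg hmi hmj)]
      have h3 : (max (g i) (g j)) ^ (-(5 / 4) : ℝ) ≤ g i ^ (-(5 / 4) : ℝ) :=
        Real.rpow_le_rpow_of_nonpos hgi (le_max_left _ _) (by norm_num)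
      have h4 : (0 : ℝ) ≤ (max (g i) (g j)) ^ (-(5 / 4) : ℝ) / (1 + (g i - g j) ^ 2) := by
        have : 0 < max (g i) (g j) := lt_of_lt_of_le hgi (le_max_left _ _)
        positivity
      calc m i * m j * _ ≤ m i * m j * (D1 * (p *
            ((max (g i) (g j)) ^ (-(5 / 4) : ℝ) / (1 + (g i - g j) ^ 2)))) :=
            mul_le_mul_of_nonneg_left P1 (mul_nonneg hmi hmj)
        _ ≤ m i * m j * (|D1| * (p * (g i ^ (-(5 / 4) : ℝ) / (1 + (g i - g j) ^ 2)))) := by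
            refine mul_le_mul_of_nonneg_left ?_ (mul_nonneg hmi hmj)
            refine mul_le_mul hD1' ?_ (by positivity) (abs_nonneg _)
            gcongr
        _ = _ := by ring
    · rw [abs_mul, abs_of_nonneg (mul_nonneg hmi hmj)]
      calc m i * m j * _ ≤ m i * m j * (4 * A * C ^ 2 * (p *
            (g i ^ (-(5 / 4) : ℝ) * g j ^ (-(5 / 4) : ℝ)))) :=
            mul_le_mul_of_nonneg_left P2 (mul_nonneg hmi hmj)
        _ = _ := by ring
  have s1 : ∑ i ∈ S, m i * g i ^ (-(5 / 4) : ℝ) ≤ 2 * C1 := by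
    have hlog : (1 : ℝ) / 2 ≤ Real.log 2 := by have := Real.log_two_gt_d9; linarith
    calc ∑ i ∈ S, m i * g i ^ (-(5 / 4) : ℝ)
        ≤ ∑ i ∈ S, 2 * (m i * g i ^ (-(5 / 4 : ℝ)) * Real.log (g i + 2)) := by
          refine Finset.sum_le_sum fun i hi => ?_
          have hgi := hg i hi
          have h5 : 1 / 2 ≤ Real.log (g i + 2) :=
            hlog.trans (Real.log_le_log (by norm_num) (by linarith))
          have h6 : 0 ≤ m i * g i ^ (-(5 / 4 : ℝ)) := mul_nonneg (hS i hi).2 (by positivity)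
          nlinarith
      _ = 2 * ∑ i ∈ S, m i * g i ^ (-(5 / 4 : ℝ)) * Real.log (g i + 2) := by
          rw [Finset.mul_sum]
      _ ≤ 2 * C1 := by linarith
  have s0 : 0 ≤ ∑ i ∈ S, m i * g i ^ (-(5 / 4) : ℝ) :=
    Finset.sum_nonneg fun i hi => mul_nonneg (hS i hi).2 (by have := hg i hi; positivity)
  have s2 : ∑ i ∈ S, ∑ j ∈ S, m i * g i ^ (-(5 / 4) : ℝ) * (m j / (1 + (g i - g j) ^ 2)) ≤
      C1 * C1 := by
    calc ∑ i ∈ S, ∑ j ∈ S, m i * g i ^ (-(5 / 4) : ℝ) * (m j / (1 + (g i - g j) ^ 2))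
        = ∑ i ∈ S, m i * g i ^ (-(5 / 4) : ℝ) * ∑ j ∈ S, (m j / (1 + (g i - g j) ^ 2)) := by
          refine Finset.sum_congr rfl fun i _ => ?_
          rw [Finset.mul_sum]
      _ ≤ ∑ i ∈ S, m i * g i ^ (-(5 / 4) : ℝ) * (C1 * Real.log (g i + 2)) := by
          refine Finset.sum_le_sum fun i hi => ?_
          have hgi := hg i hi
          exact mul_le_mul_of_nonneg_left (n1 (g i) hgi)
            (mul_nonneg (hS i hi).2 (by positivity))
      _ = C1 * ∑ i ∈ S, m i * g i ^ (-(5 / 4 : ℝ)) * Real.log (g i + 2) := by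
          rw [Finset.mul_sum]
          refine Finset.sum_congr rfl fun i _ => ?_
          ring
      _ ≤ C1 * C1 := mul_le_mul_of_nonneg_left n5 hC1
  calc _ ≤ ∑ i ∈ S, ∑ j ∈ S, (|D1| * p *
          (m i * g i ^ (-(5 / 4) : ℝ) * (m j / (1 + (g i - g j) ^ 2))) +
        4 * A * C ^ 2 * p * ((m i * g i ^ (-(5 / 4) : ℝ)) * (m j * g j ^ (-(5 / 4) : ℝ)))) := by
        refine (Finset.abs_sum_le_sum_abs _ _).trans (Finset.sum_le_sum fun i hi => ?_)
        exact (Finset.abs_sum_le_sum_abs _ _).trans (Finset.sum_le_sum fun j hj => b1 i hi j hj)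
    _ = |D1| * p * (∑ i ∈ S, ∑ j ∈ S,
          m i * g i ^ (-(5 / 4) : ℝ) * (m j / (1 + (g i - g j) ^ 2))) +
        4 * A * C ^ 2 * p * ((∑ i ∈ S, m i * g i ^ (-(5 / 4) : ℝ)) *
          (∑ j ∈ S, m j * g j ^ (-(5 / 4) : ℝ))) := by
        rw [Finset.sum_mul_sum, Finset.mul_sum, Finset.mul_sum, ← Finset.sum_add_distrib]
        refine Finset.sum_congr rfl fun i _ => ?_
        rw [Finset.mul_sum, Finset.mul_sum, ← Finset.sum_add_distrib]
    _ ≤ |D1| * p * (C1 * C1) + 4 * A * C ^ 2 * p * (2 * C1 * (2 * C1)) := by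
        gcongr
    _ = _ := by ring

end Pool.Agent.N704.PV3
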